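import Pool.Agent.W590.FrH
set_option autoImplicit false

namespace Pool.Agent.Results.MP_14b149_lc.FreshUnlessStrongLimit

/-- Let U be a normal measure on a measurable δ and κ a singular cardinal of cofinality δ with
λ^δ<κ for λ<κ such that a square_κ sequence exists. If κ is not a strong limit cardinal, or if
2^κ < 2^(κ⁺), then some unbounded A ⊆ κ⁺ is fresh over Ult(V,U). -/
theorem result :
  ∀ (δ κ : Cardinal.{0}) (U : Ultrafilter Ordinal.{0}),
    Cardinal.aleph0 < δ →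
    Set.Iio δ.ord ∈ U →
    (∀ β : Ordinal.{0}, ({β} : Set Ordinal.{0}) ∉ U) →
    (∀ (ι : Type) (s : ι → Set Ordinal.{0}), Cardinal.mk ι < δ → (∀ i, s i ∈ U) → (⋂ i, s i) ∈ U) →
    (∀ f : Ordinal.{0} → Ordinal.{0}, {β | f β < β} ∈ U → ∃ γ, {β | f β = γ} ∈ U) →
    δ < κ →
    κ.ord.cof = δ →
    (∀ μ : Cardinal.{0}, μ < κ → μ ^ δ < κ) →
    (∃ C : Ordinal.{0} → Set Ordinal.{0}, ∀ α < (Order.succ κ).ord, Order.IsSuccLimit α →
        C α ⊆ Set.Iio α ∧
        (∀ β < α, ∃ γ ∈ C α, β < γ) ∧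
        (∀ β < α, Order.IsSuccLimit β → (∀ γ < β, ∃ ξ ∈ C α, γ < ξ ∧ ξ < β) → β ∈ C α) ∧
        Nonempty (C α ↪o Set.Iio κ.ord) ∧
        (∀ β < α, Order.IsSuccLimit β → (∀ γ < β, ∃ ξ ∈ C α, γ < ξ ∧ ξ < β) →
          C β = C α ∩ Set.Iio β)) →
    ((∃ μ : Cardinal.{0}, μ < κ ∧ κ ≤ 2 ^ μ) ∨
      (2 : Cardinal.{0}) ^ κ < (2 : Cardinal.{0}) ^ (Order.succ κ)) →
    ∀ ρ : (Ordinal.{0} → Ordinal.{0}) → Ordinal.{0},
      (∀ h h' : Ordinal.{0} → Ordinal.{0},
          ρ h < ρ h' ↔ ∀ᶠ i in (U : Filter Ordinal.{0}), h i < h' i) →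
      (∀ h : Ordinal.{0} → Ordinal.{0}, ∀ β < ρ h, ∃ h' : Ordinal.{0} → Ordinal.{0}, ρ h' = β) →
      ∃ A : Set Ordinal.{0},
        A ⊆ Set.Iio (Order.succ κ).ord ∧
        (∀ β < (Order.succ κ).ord, ∃ γ ∈ A, β < γ) ∧
        (¬ ∃ g : Ordinal.{0} → Set Ordinal.{0}, ∀ η : Ordinal.{0},
            η ∈ A ↔ ∃ f : Ordinal.{0} → Ordinal.{0},
              ρ f = η ∧ ∀ᶠ i in (U : Filter Ordinal.{0}), f i ∈ g i) ∧
        (∀ α < (Order.succ κ).ord, ∃ g : Ordinal.{0} → Set Ordinal.{0}, ∀ η : Ordinal.{0},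
            η ∈ A ∩ Set.Iio α ↔ ∃ f : Ordinal.{0} → Ordinal.{0},
              ρ f = η ∧ ∀ᶠ i in (U : Filter Ordinal.{0}), f i ∈ g i) := by
  intro δ κ U hδ0 hδU hnp hcomp hnorm hδκ hcof hpow hsq hcase ρ hρ hρ'
  by_contra hno
  have hκ0 : Cardinal.aleph0 ≤ κ := (hδ0.trans hδκ).le
  have hKlim : Order.IsSuccLimit (Order.succ κ).ord :=
    Cardinal.isSuccLimit_ord (hκ0.trans (Order.le_succ κ))
  have hK : ∀ β < (Order.succ κ).ord, Order.succ β < (Order.succ κ).ord :=
    fun β hβ => hKlim.succ_lt hβ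
  have hmkprod : Cardinal.mk (↥(Set.Iio δ.ord) × ↥(Set.Iio κ.ord)) = Cardinal.lift.{1} κ := by
    rw [Cardinal.mk_prod, Cardinal.mk_Iio_ordinal, Cardinal.mk_Iio_ordinal, Cardinal.card_ord,
      Cardinal.card_ord, Cardinal.lift_id, Cardinal.lift_id, ← Cardinal.lift_mul,
      Cardinal.mul_eq_right hκ0 hδκ.le (by rintro rfl; simp at hδ0)]
  have hmkK : Cardinal.mk (↥(Set.Iio (Order.succ κ).ord)) = Cardinal.lift.{1} (Order.succ κ) := by
    rw [Cardinal.mk_Iio_ordinal, Cardinal.card_ord]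
  rcases hcase with ⟨μ, hμκ, hμ⟩ | hcase
  · -- κ is not a strong limit
    set μ' := max μ δ with hμ'
    have hμ'κ : μ' < κ := max_lt hμκ hδκ
    have hμ'0 : Cardinal.aleph0 ≤ μ' := hδ0.le.trans (le_max_right _ _)
    have h1 : κ ≤ 2 ^ μ' := hμ.trans (Cardinal.power_le_power_left (by norm_num) (le_max_left _ _))
    have h2 : κ ≠ 2 ^ μ' := by
      intro h
      have h3 := Cardinal.lt_cof_power hμ'0 (b := 2) Cardinal.one_lt_two
      rw [← h, hcof] at h3
      exact absurd (le_max_right μ δ) (not_le.mpr h3)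
    have h3 : Order.succ κ ≤ 2 ^ μ' := Order.succ_le_of_lt (lt_of_le_of_ne h1 h2)
    have h4 : Cardinal.mk (↥(Set.Iio (Order.succ κ).ord)) ≤ Cardinal.mk (Set (↥(Set.Iio μ'.ord))) := by
      rw [hmkK, Cardinal.mk_set, Cardinal.mk_Iio_ordinal, Cardinal.card_ord]
      have := Cardinal.lift_le.{1}.mpr h3
      rwa [Cardinal.lift_two_power] at this
    obtain ⟨e⟩ := h4
    classical
    set H : Ordinal.{0} → Set Ordinal.{0} := fun β =>
      if h : β < (Order.succ κ).ord then Subtype.val '' (e ⟨β, h⟩) else ∅ with hH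
    have hHsub : ∀ β, H β ⊆ Set.Iio μ'.ord := by
      intro β x hx
      simp only [hH] at hx
      split_ifs at hx with h
      · obtain ⟨y, _, rfl⟩ := hx
        exact y.2
      · exact absurd hx (Set.notMem_empty x)
    have hHinj : ∀ β < (Order.succ κ).ord, ∀ β' < (Order.succ κ).ord, H β = H β' → β = β' := by
      intro β hβ β' hβ' h
      simp only [hH, dif_pos hβ, dif_pos hβ'] at h
      have h5 := Set.image_injective.mpr Subtype.val_injective h
      exact congrArg Subtype.val (e.injective h5)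
    have hHne : ∀ β < (Order.succ κ).ord, ∃ γ < (Order.succ κ).ord, β < γ ∧ (H γ).Nonempty := by
      intro β hβ
      by_contra hcon
      push Not at hcon
      have a1 := hK β hβ
      have a2 := hK _ a1
      have b1 := hcon _ a1 (Order.lt_succ β)
      have b2 := hcon _ a2 ((Order.lt_succ β).trans (Order.lt_succ _))
      have b3 := hHinj _ a1 _ a2 (b1.trans b2.symm)
      exact absurd b3 (Order.lt_succ _).ne
    obtain ⟨G, hG, hGF⟩ := W590F.factor δ κ U hδ0 hδU hnp hcomp hnorm hδκ hcof hpow hsq ρ hρ hρ' hno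
      μ'.ord (by rw [Cardinal.lt_ord]; simpa using (Cardinal.aleph0_pos.trans_le hμ'0))
      (by rw [Cardinal.card_ord]; exact hμ'κ)
    obtain ⟨F, hF⟩ := hGF H hHsub hHne
    have hex : ∀ β : ↥(Set.Iio (Order.succ κ).ord), ∃ i : Ordinal.{0}, i < δ.ord ∧
        H β = F i (G β i) := by
      rintro ⟨β, hβ⟩
      have h5 : ∀ᶠ i in (U : Filter Ordinal.{0}), i < δ.ord := hδU
      obtain ⟨i, hi1, hi2⟩ := (h5.and (hF β hβ)).exists
      exact ⟨i, hi1, hi2⟩
    choose ii hii1 hii2 using hex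
    have h6 : Cardinal.mk (↥(Set.Iio (Order.succ κ).ord)) ≤
        Cardinal.mk (↥(Set.Iio δ.ord) × ↥(Set.Iio κ.ord)) := by
      refine Cardinal.mk_le_of_injective
        (f := fun β => (⟨ii β, hii1 β⟩, ⟨G β (ii β), hG β β.2 _ (hii1 β)⟩)) ?_
      intro β β' h
      have h7 : ii β = ii β' := congrArg (fun p => p.1.1) h
      have h8 : G β (ii β) = G β' (ii β') := congrArg (fun p => p.2.1) h
      apply Subtype.ext
      apply hHinj _ β.2 _ β'.2
      rw [hii2 β, hii2 β', h8, h7]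
    rw [hmkprod, hmkK] at h6
    exact absurd (Cardinal.lift_le.mp h6) (not_le.mpr (Order.lt_succ κ))
  · -- 2^κ < 2^(κ⁺)
    obtain ⟨G, hG, hGF⟩ := W590F.factor δ κ U hδ0 hδU hnp hcomp hnorm hδκ hcof hpow hsq ρ hρ hρ' hno
      2 (by norm_num) (by
        refine lt_of_lt_of_le ?_ hκ0
        rw [Ordinal.card_lt_aleph0]
        exact Ordinal.nat_lt_omega0 2)
    classical
    have hex : ∀ T : Set (↥(Set.Iio (Order.succ κ).ord)),
        ∃ F : Ordinal.{0} → Ordinal.{0} → Set Ordinal.{0}, ∀ β : ↥(Set.Iio (Order.succ κ).ord),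
          ∀ᶠ i in (U : Filter Ordinal.{0}), (β ∈ T ↔ (0 : Ordinal.{0}) ∈ F i (G β i)) := by
      intro T
      obtain ⟨F, hF⟩ := hGF (fun β => if β ∈ Subtype.val '' T then {0} else {1}) (by
          intro β
          split_ifs with h
          · rintro x rfl
            show (0 : Ordinal.{0}) < 2
            norm_num
          · rintro x rfl
            show (1 : Ordinal.{0}) < 2
            norm_num) (by
          intro β hβ
          refine ⟨Order.succ β, hK β hβ, Order.lt_succ β, ?_⟩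
          split_ifs
          · exact Set.singleton_nonempty _
          · exact Set.singleton_nonempty _)
      refine ⟨F, ?_⟩
      rintro ⟨β, hβ⟩
      filter_upwards [hF β hβ] with i hi
      rw [← hi]
      constructor
      · intro h
        rw [if_pos ⟨⟨β, hβ⟩, h, rfl⟩]
        rfl
      · intro h
        by_contra hcon
        rw [if_neg (by
          rintro ⟨⟨y, hy⟩, h', h''⟩
          simp only at h''
          subst h''
          exact hcon h')] at h
        exact absurd h (by simp)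
    choose F hF using hex
    have h6 : Cardinal.mk (Set (↥(Set.Iio (Order.succ κ).ord))) ≤
        Cardinal.mk (Set (↥(Set.Iio δ.ord) × ↥(Set.Iio κ.ord))) := by
      refine Cardinal.mk_le_of_injective
        (f := fun T => {p | (0 : Ordinal.{0}) ∈ F T p.1.1 p.2.1}) ?_
      intro T T' h
      ext β
      have h5 : ∀ᶠ i in (U : Filter Ordinal.{0}), i < δ.ord := hδU
      obtain ⟨i, ⟨hi0, hi1⟩, hi2⟩ := ((h5.and (hF T β)).and (hF T' β)).exists
      rw [hi1, hi2]
      have h7 := Set.ext_iff.mp h (⟨i, hi0⟩, ⟨G β i, hG β β.2 i hi0⟩)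
      exact h7
    rw [Cardinal.mk_set, Cardinal.mk_set, hmkprod, hmkK, ← Cardinal.lift_two_power,
      ← Cardinal.lift_two_power, Cardinal.lift_le] at h6
    exact absurd hcase (not_lt.mpr h6)

end Pool.Agent.Results.MP_14b149_lc.FreshUnlessStrongLimit
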